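import Pool.Agent.Lib.MP_922422_co.FourBuild

namespace Pool.Agent.Results.MP_922422_co.AttainedFour

open Pool.Agent.Lib.MP_922422_co

theorem result (A : Type) [Fintype A] (hk : 2 ≤ Fintype.card A) (H : Finset ℕ)
    (hne : H.Nonempty) (i₀ m n : ℕ) (hH : ∀ y ∈ H, i₀ ≤ y ∧ y < i₀ + m)
    (hn : i₀ + 3 * 4 ^ (Fintype.card A ^ H.card) * (2 * m + 3) ≤ n) :
    ∃ w : List (Option A), w.length = n ∧ holes w = ↑H ∧
      ∀ i : ℕ, i₀ ≤ i → (Sq w i = 2 * Fintype.card A ^ H.card ↔ ∀ y ∈ H, i ≤ y) :=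
  Four.attained hk H i₀ m n hH hne hn

end Pool.Agent.Results.MP_922422_co.AttainedFour
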