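import Pool.Agent.Lib.MP_922422_co.FourLower

namespace Pool.Agent.Results.MP_922422_co.LengthFour

open Pool.Agent.Lib.MP_922422_co

theorem result (A : Type) [Fintype A] (hk : 2 ≤ Fintype.card A) (w : List (Option A))
    (H : Finset ℕ) (hH : holes w = ↑H) (i : ℕ) (hS : Sq w i = 2 * Fintype.card A ^ H.card)
    (y : ℕ) (hy : y ∈ H) :
    ((y : ℤ) + 1 - i) * 4 ^ (Fintype.card A ^ H.card) ≤
      4 ^ (84 * (H.card + 1) ^ 2 + (H.card.choose 2) ^ 2 + 11) * ((w.length : ℤ) - i) := by
  have h1 := four_bound hk hH hS hy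
  have h2 := le_of_extremal hH hk hS hy
  have h3 : y < w.length := by
    have : y ∈ holes w := by rw [hH]; exact hy
    by_contra h
    have h4 : w[y]? = some none := this
    rw [List.getElem?_eq_none (by omega)] at h4
    cases h4
  have h5 : ((y + 1 - i : ℕ) : ℤ) = (y : ℤ) + 1 - i := by omega
  have h6 : ((w.length - i : ℕ) : ℤ) = (w.length : ℤ) - i := by omega
  rw [← h5, ← h6]
  exact_mod_cast h1

end Pool.Agent.Results.MP_922422_co.LengthFour
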