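import Pool.Agent.Lib.MP_922422_co.FourOrder

namespace Pool.Agent.Results.MP_922422_co.Order

open Pool.Agent.Lib.MP_922422_co

theorem result (k h n : ℕ) (hk : 2 ≤ k) (hh : 1 ≤ h) :
    (maxExtremal k h n : ℝ) ∈ Set.Icc ((n : ℝ) / (6 * 4 ^ (k ^ h)) - h - 3 / 2)
      (4 ^ (84 * (h + 1) ^ 2 + (h.choose 2) ^ 2 + 11) * n / 4 ^ (k ^ h)) :=
  max_order hk hh n

end Pool.Agent.Results.MP_922422_co.Order
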